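import Pool.Agent.Run7.h245.SR.Iface1
import Pool.Agent.N630.PP.GP
import Pool.Agent.N187.PP.GN
import Pool.Agent.N199.PP.GL

/-!
# Project SR (helper245): common lemmas for the cocycle side (helper277)
-/

set_option autoImplicit false
set_option linter.all false

open Polynomial IsDedekindDomain WeierstrassCurve WeierstrassCurve.Affine
open Pool.Agent.TH115.GD Pool.Agent.N874.PP
open scoped Classical Pointwise

namespace Pool.Agent.Run7.h277.SR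

open Pool.Agent.N630.PP (gp1 gp2 gp3 gp4)
open Pool.Agent.N199.PP (cub exists_Z mem_Z exists_res interp Rt_map)
open Pool.Agent.N187.PP (sg_sq sg_mul_self fix_sg sg_act' two_act' rt_map' root_cases prod_perm
  locConst_apply)

section pts

variable {K Ω : Type} [Field K] [Field Ω] [Algebra K Ω] {A B : K}

/-- three different zeros over a separably closed field -/
theorem roots3 [IsSepClosed Ω] (hd : 4 * A ^ 3 + 27 * B ^ 2 ≠ 0) :
    ∃ t₁ t₂ t₃ : Ω, t₁ ≠ t₂ ∧ t₁ ≠ t₃ ∧ t₂ ≠ t₃ ∧ Rt A B t₁ ∧ Rt A B t₂ ∧ Rt A B t₃ ∧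
      ∀ t : Ω, Rt A B t → t = t₁ ∨ t = t₂ ∨ t = t₃ := by
  obtain ⟨Z, hZ3, hZ⟩ := exists_Z (Ω := Ω) A B hd
  obtain ⟨a, b, c, hab, hac, hbc, hZe⟩ := Finset.card_eq_three.1 hZ3
  have m : ∀ t : Ω, Rt A B t ↔ t = a ∨ t = b ∨ t = c := by
    intro t
    rw [← mem_Z hZ, hZe]
    simp
  exact ⟨a, b, c, hab, hac, hbc, (m a).2 (Or.inl rfl), (m b).2 (Or.inr (Or.inl rfl)),
    (m c).2 (Or.inr (Or.inr rfl)), fun t ht => (m t).1 ht⟩

/-- two torsion points: `-T = T` -/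
theorem neg_two {G : Type} [AddCommGroup G] {T : G} (h : (2 : ℕ) • T = 0) : -T = T := by
  rw [two_nsmul] at h
  exact neg_eq_of_add_eq_zero_left h

/-- multiplicativity -/
theorem sg_add [IsSepClosed Ω] (h6 : (6 : K) ≠ 0) (hd : 4 * A ^ 3 + 27 * B ^ 2 ≠ 0)
    {T T' : Pt (sW A B) Ω} (hT : (2 : ℕ) • T = 0) (hT' : (2 : ℕ) • T' = 0) {t : Ω}
    (ht : Rt A B t) : sg (T + T') t = sg T t * sg T' t := by
  obtain ⟨t₁, t₂, t₃, n1, n2, n3, r1, r2, r3, -⟩ := roots3 (Ω := Ω) hd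
  exact (gp3 K Ω A B h6 hd t₁ t₂ t₃ r1 r2 r3 n1 n2 n3).2.1 T T' t hT hT' ht

theorem two_add {G : Type} [AddCommGroup G] {T T' : G} (hT : (2 : ℕ) • T = 0)
    (hT' : (2 : ℕ) • T' = 0) : (2 : ℕ) • (T + T') = 0 := by
  rw [nsmul_add, hT, hT', add_zero]

/-- uniqueness -/
theorem sg_ext [IsSepClosed Ω] (h6 : (6 : K) ≠ 0) (hd : 4 * A ^ 3 + 27 * B ^ 2 ≠ 0)
    {T T' : Pt (sW A B) Ω} (hT : (2 : ℕ) • T = 0) (hT' : (2 : ℕ) • T' = 0)
    (h : ∀ t : Ω, Rt A B t → sg T t = sg T' t) : T = T' := by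
  obtain ⟨t₁, t₂, t₃, n1, n2, n3, r1, r2, r3, -⟩ := roots3 (Ω := Ω) hd
  have key : ∀ t : Ω, Rt A B t → sg (T + T') t = 1 := by
    intro t ht
    rw [sg_add h6 hd hT hT' ht, h t ht, sg_mul_self]
  have h0 := (gp3 K Ω A B h6 hd t₁ t₂ t₃ r1 r2 r3 n1 n2 n3).2.2.1 (T + T') (two_add hT hT')
    (key _ r1) (key _ r2) (key _ r3)
  have := eq_neg_of_add_eq_zero_left h0
  rw [this, neg_two hT']

/-- existence: signs with product one at the zeros, up to a global sign -/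
theorem sg_exists [IsSepClosed Ω] (h6 : (6 : K) ≠ 0) (hd : 4 * A ^ 3 + 27 * B ^ 2 ≠ 0)
    (ε : Ω → Ω) (hε : ∀ t, Rt A B t → ε t = 1 ∨ ε t = -1) :
    ∃ (T : Pt (sW A B) Ω) (c : ℤ), (2 : ℕ) • T = 0 ∧ (c = 1 ∨ c = -1) ∧
      ∀ t, Rt A B t → ε t = (c : Ω) * sg T t := by
  obtain ⟨t₁, t₂, t₃, n1, n2, n3, r1, r2, r3, hall⟩ := roots3 (Ω := Ω) hd
  have G4 := (gp3 K Ω A B h6 hd t₁ t₂ t₃ r1 r2 r3 n1 n2 n3).2.2.2
  have hprod : ε t₁ * ε t₂ * ε t₃ = 1 ∨ (-ε t₁) * (-ε t₂) * (-ε t₃) = 1 := by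
    rcases hε _ r1 with h1 | h1 <;> rcases hε _ r2 with h2 | h2 <;> rcases hε _ r3 with h3 | h3 <;>
      rw [h1, h2, h3] <;> simp
  rcases hprod with hp | hp
  · obtain ⟨T, hT, s1, s2, s3⟩ := G4 _ _ _ (hε _ r1) (hε _ r2) (hε _ r3) hp
    refine ⟨T, 1, hT, Or.inl rfl, fun t ht => ?_⟩
    rcases hall t ht with rfl | rfl | rfl
    · rw [s1]; simp
    · rw [s2]; simp
    · rw [s3]; simp
  · have hε' : ∀ t, Rt A B t → -ε t = 1 ∨ -ε t = -1 := by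
      intro t ht
      rcases hε t ht with h | h <;> rw [h] <;> simp
    obtain ⟨T, hT, s1, s2, s3⟩ := G4 _ _ _ (hε' _ r1) (hε' _ r2) (hε' _ r3) hp
    refine ⟨T, -1, hT, Or.inr rfl, fun t ht => ?_⟩
    rcases hall t ht with rfl | rfl | rfl
    · rw [s1]; simp
    · rw [s2]; simp
    · rw [s3]; simp

end pts

end Pool.Agent.Run7.h277.SR
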